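import Mathlib

set_option autoImplicit false

namespace Pool.Agent.Results.MP_f2eb3d_co.Width

open Finset

/-- value of an integer linear form at a real point -/
def ev {n : ℕ} (l : Fin n → ℤ) (x : Fin n → ℝ) : ℝ := ∑ j, (l j : ℝ) * x j

theorem ev_lin {n : ℕ} (l : Fin n → ℤ) : IsLinearMap ℝ (ev l) where
  map_add x y := by simp [ev, mul_add, sum_add_distrib]
  map_smul c x := by simp [ev, mul_sum, mul_left_comm]

theorem result (n : ℕ) (V : Finset (Fin n → ℤ)) (P : Set (Fin n → ℝ))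
    (hP : P = convexHull ℝ ((fun v j => (v j : ℝ)) '' (V : Set (Fin n → ℤ))))
    (hdim : affineSpan ℝ P = ⊤)
    (m : ℕ) (a : Fin m → Fin n → ℤ) (b : Fin m → ℤ)
    (hH : P = {x | ∀ i, (b i : ℝ) ≤ ev (a i) x})
    (hprim : ∀ i, univ.gcd (a i) = 1)
    (hfacet : ∀ i, {x ∈ P | ev (a i) x = b i}.Nonempty ∧
      Module.finrank ℝ (vectorSpan ℝ {x ∈ P | ev (a i) x = b i}) + 1 = n)
    (σ : ℝ) (hσ : IsLUB {s : ℝ | 0 < s ∧ ∃ x : Fin n → ℝ, ∀ i, s ≤ ev (a i) x - b i} σ)
    (hμ : ((n : ℝ) + 1) / 2 < σ⁻¹) :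
    ∃ l : Fin n → ℤ, l ≠ 0 ∧ ∃ c : ℝ, IsLeast (ev l '' P) c ∧ IsGreatest (ev l '' P) (c + 1) := by
  classical
  by_contra hn
  push Not at hn
  have hVP : ∀ v ∈ V, (fun j => (v j : ℝ)) ∈ P := fun v hv => by
    rw [hP]
    exact subset_convexHull ℝ _ ⟨v, hv, rfl⟩
  have hge : ∀ x ∈ P, ∀ i, (b i : ℝ) ≤ ev (a i) x := fun x hx => by rw [hH] at hx; exact hx
  have hne : ∀ i, a i ≠ 0 := by
    intro i h
    have := hprim i
    rw [h] at this
    have h0 : (univ : Finset (Fin n)).gcd (0 : Fin n → ℤ) = 0 := gcd_eq_zero_iff.mpr (by simp)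
    rw [h0] at this
    exact zero_ne_one this
  have hle : ∀ (l : Fin n → ℤ) (t : ℝ), (∀ v ∈ V, ev l (fun j => (v j : ℝ)) ≤ t) →
      ∀ x ∈ P, ev l x ≤ t := by
    intro l t h x hx
    rw [hP] at hx
    refine convexHull_min (t := {x | ev l x ≤ t}) ?_ (convex_halfSpace_le (ev_lin l) t) hx
    rintro _ ⟨v, hv, rfl⟩
    exact h v hv
  have hint : ∀ (l v : Fin n → ℤ), ev l (fun j => (v j : ℝ)) = ((∑ j, l j * v j : ℤ) : ℝ) := by
    intro l v
    simp [ev]
  have key : ∀ i, ∃ x ∈ P, (b i : ℝ) + 2 ≤ ev (a i) x := by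
    intro i
    by_contra h2
    push Not at h2
    obtain ⟨⟨y, hy, hy'⟩, hf⟩ := hfacet i
    have h1 : ∀ x ∈ P, ev (a i) x ≤ b i + 1 := by
      refine hle _ _ fun v hv => ?_
      have := h2 _ (hVP v hv)
      rw [hint] at this ⊢
      have h3 : (∑ j, a i j * v j : ℤ) < b i + 2 := by exact_mod_cast this
      exact_mod_cast (by omega : (∑ j, a i j * v j : ℤ) ≤ b i + 1)
    by_cases h3 : ∃ x ∈ P, ev (a i) x = b i + 1
    · obtain ⟨x, hx, hx'⟩ := h3
      refine hn (a i) (hne i) (b i) ⟨⟨y, hy, hy'⟩, ?_⟩ ⟨⟨x, hx, hx'⟩, ?_⟩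
      · rintro _ ⟨z, hz, rfl⟩
        exact hge z hz i
      · rintro _ ⟨z, hz, rfl⟩
        exact h1 z hz
    · push Not at h3
      have h4 : ∀ x ∈ P, ev (a i) x ≤ b i := by
        refine hle _ _ fun v hv => ?_
        have e1 := h1 _ (hVP v hv)
        have e2 := h3 _ (hVP v hv)
        rw [hint] at e1 e2 ⊢
        have e3 : (∑ j, a i j * v j : ℤ) ≤ b i + 1 := by exact_mod_cast e1
        have e4 : (∑ j, a i j * v j : ℤ) ≠ b i + 1 := by exact_mod_cast e2
        exact_mod_cast (by omega : (∑ j, a i j * v j : ℤ) ≤ b i)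
      have h5 : {x ∈ P | ev (a i) x = b i} = P := by
        ext x
        exact ⟨fun h => h.1, fun h => ⟨h, le_antisymm (h4 x h) (hge x h i)⟩⟩
      rw [h5, ← direction_affineSpan, hdim, AffineSubspace.direction_top, finrank_top] at hf
      simp at hf
  choose w hw hw2 using key
  have hn1 : (0 : ℝ) < n + 1 := by positivity
  have hel := Convex.helly_theorem' (𝕜 := ℝ) (s := (univ : Finset (Fin m)))
    (F := fun i => {x : Fin n → ℝ | (b i : ℝ) + 2 / (n + 1) ≤ ev (a i) x})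
    (fun i _ => convex_halfSpace_ge (ev_lin _) _) (by
      intro I _ hI
      rcases I.eq_empty_or_nonempty with rfl | hI0
      · simp
      have hc : (0 : ℝ) < I.card := by exact_mod_cast hI0.card_pos
      have hc' : (I.card : ℝ) ≤ n + 1 := by
        simp only [Module.finrank_fin_fun] at hI
        exact_mod_cast hI
      refine ⟨(1 / (I.card : ℝ)) • ∑ i ∈ I, w i, ?_⟩
      simp only [Set.mem_iInter, Set.mem_setOf_eq]
      intro j hj
      have e1 : ev (a j) ((1 / (I.card : ℝ)) • ∑ i ∈ I, w i)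
          = (∑ i ∈ I, ev (a j) (w i)) / I.card := by
        rw [(ev_lin (a j)).map_smul]
        have := map_sum ((ev_lin (a j)).mk' _) w I
        simp only [IsLinearMap.mk'_apply] at this
        rw [this, smul_eq_mul]
        ring
      have e2 : (∑ i ∈ I, ((b j : ℝ) + if i = j then 2 else 0)) ≤ ∑ i ∈ I, ev (a j) (w i) := by
        refine sum_le_sum fun i _ => ?_
        split_ifs with h
        · subst h
          exact hw2 i
        · simpa using hge _ (hw i) j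
      rw [sum_add_distrib, sum_const, sum_ite_eq', if_pos hj, nsmul_eq_mul] at e2
      rw [e1, le_div_iff₀ hc]
      have e3 : 2 / ((n : ℝ) + 1) * I.card ≤ 2 := by
        rw [div_mul_eq_mul_div, div_le_iff₀ hn1]
        linarith
      linarith)
  obtain ⟨x, hx⟩ := hel
  simp only [Set.mem_iInter, Set.mem_setOf_eq] at hx
  have h0 : (0 : ℝ) < 2 / (n + 1) := by positivity
  have h1 : 2 / ((n : ℝ) + 1) ≤ σ := hσ.1 ⟨h0, x, fun i => by linarith [hx i (mem_univ _)]⟩
  have h2 := inv_anti₀ h0 h1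
  rw [inv_div] at h2
  linarith

end Pool.Agent.Results.MP_f2eb3d_co.Width
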